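import Pool.Agent.Y333.RG.RegA

/-!
# Job 6245 (RG-REG): Gaussian regularisation of a log-concave function of bounded support
-/

set_option autoImplicit false

open MeasureTheory Set Filter Topology
open scoped ENNReal

namespace Pool.Agent.Y333.RG

open Pool.Agent.Y506.RG

/-- the kernel -/
noncomputable def kk (c s u : ℝ) : ℝ := Real.exp (-(c * (s - u) ^ 2 / 2))

/-- convolution with the kernel -/
noncomputable def ZZ (h : ℝ → ℝ) (c s : ℝ) : ℝ := ∫ u, h u * kk c s u

/-- first moment -/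
noncomputable def MM (h : ℝ → ℝ) (c s : ℝ) : ℝ := ∫ u, u * (h u * kk c s u)

/-- the regularisation -/
noncomputable def HH (h : ℝ → ℝ) (c s : ℝ) : ℝ := √(c / (2 * Real.pi)) * ZZ h c s

theorem kk_pos (c s u : ℝ) : 0 < kk c s u := Real.exp_pos _

theorem kk_le {c : ℝ} (hc : 0 ≤ c) (s u : ℝ) : kk c s u ≤ 1 := by
  unfold kk
  rw [Real.exp_le_one_iff]
  have := mul_nonneg hc (sq_nonneg (s - u))
  linarith

theorem kk_cont (c s : ℝ) : Continuous fun u => kk c s u := by
  unfold kk
  fun_prop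

theorem kk_lc {c : ℝ} (hc : 0 ≤ c) (x y u v t : ℝ) (ht : 0 < t) (ht1 : t < 1) :
    kk c x u ^ (1 - t) * kk c y v ^ t ≤
      kk c ((1 - t) * x + t * y) ((1 - t) * u + t * v) := by
  unfold kk
  rw [← Real.exp_mul, ← Real.exp_mul, ← Real.exp_add]
  apply Real.exp_le_exp.2
  have h1 : ((1 - t) * x + t * y - ((1 - t) * u + t * v)) ^ 2 ≤
      (1 - t) * (x - u) ^ 2 + t * (y - v) ^ 2 := by
    nlinarith [mul_nonneg (mul_nonneg ht.le (sub_nonneg.2 ht1.le))
      (sq_nonneg (x - u - (y - v)))]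
  have h2 := mul_le_mul_of_nonneg_left h1 hc
  linarith

theorem kk_int {c : ℝ} (hc : 0 < c) (s : ℝ) : Integrable fun u => kk c s u := by
  have h1 : Integrable fun x : ℝ => Real.exp (-(c / 2) * x ^ 2) :=
    integrable_exp_neg_mul_sq (by positivity)
  have h2 := h1.comp_sub_left s
  refine h2.congr (Eventually.of_forall fun u => ?_)
  unfold kk
  simp only
  congr 1
  ring

theorem kk_integral (c : ℝ) (s : ℝ) : ∫ u, kk c s u = √(Real.pi / (c / 2)) := by
  rw [← integral_gaussian (c / 2), ← integral_sub_left_eq_self (fun x : ℝ =>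
    Real.exp (-(c / 2) * x ^ 2)) volume s]
  refine integral_congr_ae (Eventually.of_forall fun u => ?_)
  unfold kk
  simp only
  congr 1
  ring

section

variable {h : ℝ → ℝ} {R : ℝ}

theorem int0 (hl : LC1 h) (hi : 0 < ∫ s, h s) {c : ℝ} (hc : 0 ≤ c) (s : ℝ) :
    Integrable fun u => h u * kk c s u := by
  have h1 : Integrable h := Integrable.of_integral_ne_zero hi.ne'
  refine h1.mono' ((hl.meas.mul (kk_cont c s).measurable).aestronglyMeasurable)
    (Eventually.of_forall fun u => ?_)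
  rw [Real.norm_of_nonneg (mul_nonneg (hl.nonneg u) (kk_pos c s u).le)]
  exact mul_le_of_le_one_right (hl.nonneg u) (kk_le hc s u)

theorem abs_mul_le (hl : LC1 h) (hs : ∀ s, R < |s| → h s = 0) (u : ℝ) : |u| * h u ≤ R * h u := by
  rcases lt_or_ge R |u| with h1 | h1
  · rw [hs u h1, mul_zero, mul_zero]
  · exact mul_le_mul_of_nonneg_right h1 (hl.nonneg u)

theorem int1 (hl : LC1 h) (hs : ∀ s, R < |s| → h s = 0) (hi : 0 < ∫ s, h s) {c : ℝ} (hc : 0 ≤ c)
    (s : ℝ) : Integrable fun u => u * (h u * kk c s u) := by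
  have h1 : Integrable h := Integrable.of_integral_ne_zero hi.ne'
  refine (h1.const_mul R).mono' ((measurable_id.mul
    (hl.meas.mul (kk_cont c s).measurable)).aestronglyMeasurable)
    (Eventually.of_forall fun u => ?_)
  change ‖u * (h u * kk c s u)‖ ≤ R * h u
  rw [norm_mul, Real.norm_of_nonneg (mul_nonneg (hl.nonneg u) (kk_pos c s u).le),
    Real.norm_eq_abs, ← mul_assoc]
  exact le_trans (mul_le_of_le_one_right (mul_nonneg (abs_nonneg _) (hl.nonneg u))
    (kk_le hc s u)) (abs_mul_le hl hs u)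

theorem ZZ_pos (hl : LC1 h) (hR : 0 < R) (hs : ∀ s, R < |s| → h s = 0) (hi : 0 < ∫ s, h s) {c : ℝ}
    (hc : 0 ≤ c) (s : ℝ) : 0 < ZZ h c s := by
  have h1 : Integrable h := Integrable.of_integral_ne_zero hi.ne'
  have h2 : ∫ u, h u * Real.exp (-(c * (|s| + R) ^ 2 / 2)) ≤ ZZ h c s := by
    refine integral_mono (h1.mul_const _) (int0 hl hi hc s) fun u => ?_
    rcases lt_or_ge R |u| with h3 | h3
    · simp only
      rw [hs u h3, zero_mul, zero_mul]
    · refine mul_le_mul_of_nonneg_left (Real.exp_le_exp.2 ?_) (hl.nonneg u)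
      have h4 : |s - u| ≤ |s| + R := (abs_sub _ _).trans (by linarith)
      have h5 : (s - u) ^ 2 ≤ (|s| + R) ^ 2 := by
        rw [← sq_abs (s - u)]
        exact pow_le_pow_left₀ (abs_nonneg _) h4 2
      have := mul_le_mul_of_nonneg_left h5 hc
      linarith
  rw [integral_mul_const] at h2
  exact lt_of_lt_of_le (mul_pos hi (Real.exp_pos _)) h2

theorem ZZ_deriv (hl : LC1 h) (hR : 0 < R) (hs : ∀ s, R < |s| → h s = 0) (hi : 0 < ∫ s, h s) {c : ℝ}
    (hc : 0 ≤ c) (s : ℝ) :
    HasDerivAt (fun s => ZZ h c s) (-(c * (s * ZZ h c s - MM h c s))) s := by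
  have h1 : Integrable h := Integrable.of_integral_ne_zero hi.ne'
  have key := hasDerivAt_integral_of_dominated_loc_of_deriv_le (μ := (volume : Measure ℝ))
    (F := fun x u => h u * kk c x u)
    (F' := fun x u => h u * (kk c x u * (-(c * (x - u)))))
    (x₀ := s) (s := Metric.ball s 1) (bound := fun u => h u * (c * (|s| + 1 + R)))
    (Metric.ball_mem_nhds s one_pos)
    (Eventually.of_forall fun x => (int0 hl hi hc x).aestronglyMeasurable)
    (int0 hl hi hc s) ?_ ?_ (h1.mul_const _) ?_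
  · have h2 := key.2
    have e : ∫ u, h u * (kk c s u * (-(c * (s - u)))) = -(c * (s * ZZ h c s - MM h c s)) := by
      have e1 : (fun u => h u * (kk c s u * (-(c * (s - u))))) =
          fun u => c * (u * (h u * kk c s u)) - c * s * (h u * kk c s u) := by
        funext u
        ring
      rw [e1, integral_sub ((int1 hl hs hi hc s).const_mul c) ((int0 hl hi hc s).const_mul _),
        integral_const_mul, integral_const_mul]
      unfold ZZ MM
      ring
    rw [e] at h2
    exact h2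
  · refine (hl.meas.mul ((kk_cont c s).measurable.mul ?_)).aestronglyMeasurable
    fun_prop
  · refine Eventually.of_forall fun u x hx => ?_
    rw [Metric.mem_ball, Real.dist_eq] at hx
    rcases lt_or_ge R |u| with h3 | h3
    · rw [hs u h3, zero_mul, zero_mul, norm_zero]
    · rw [norm_mul, Real.norm_of_nonneg (hl.nonneg u), norm_mul,
        Real.norm_of_nonneg (kk_pos c x u).le, norm_neg, norm_mul, Real.norm_of_nonneg hc,
        Real.norm_eq_abs]
      refine mul_le_mul_of_nonneg_left ?_ (hl.nonneg u)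
      have h4 : |x - u| ≤ |s| + 1 + R := by
        have h5 : |x| ≤ |s| + 1 := by
          have := abs_sub_abs_le_abs_sub x s
          linarith
        exact (abs_sub _ _).trans (by linarith)
      have h6 : c * |x - u| ≤ c * (|s| + 1 + R) := mul_le_mul_of_nonneg_left h4 hc
      refine le_trans (mul_le_of_le_one_left (mul_nonneg hc (abs_nonneg _)) (kk_le hc x u)) h6
  · refine Eventually.of_forall fun u x _ => ?_
    have h3 : HasDerivAt (fun x : ℝ => -(c * (x - u) ^ 2 / 2)) (-(c * (x - u))) x := by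
      have h4 := ((((hasDerivAt_id x).sub_const u).pow 2).const_mul c).div_const 2
      refine h4.neg.congr_deriv ?_
      simp only [id]
      ring
    exact (h3.exp).const_mul (h u)

theorem ZZ_lc (hl : LC1 h) (hi : 0 < ∫ s, h s) {c : ℝ}
    (hc : 0 ≤ c) (x y t : ℝ) (ht : 0 < t) (ht1 : t < 1) :
    ZZ h c x ^ (1 - t) * ZZ h c y ^ t ≤ ZZ h c ((1 - t) * x + t * y) := by
  have hm : ∀ s, Measurable fun u => ENNReal.ofReal (h u * kk c s u) := fun s =>
    (hl.meas.mul (kk_cont c s).measurable).ennreal_ofReal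
  have hn : ∀ s u, 0 ≤ h u * kk c s u := fun s u => mul_nonneg (hl.nonneg u) (kk_pos c s u).le
  have hZ : ∀ s, 0 ≤ ZZ h c s := fun s => integral_nonneg fun u => hn s u
  have t1 : 0 ≤ 1 - t := by linarith
  have key := Pool.Agent.H212R2.KLS.PL (volume : Measure ℝ) t ht ht1
    (fun u => ENNReal.ofReal (h u * kk c x u)) (fun u => ENNReal.ofReal (h u * kk c y u))
    (fun u => ENNReal.ofReal (h u * kk c ((1 - t) * x + t * y) u)) (hm _) (hm _) (hm _) ?_
  · rw [← ofReal_integral_eq_lintegral_ofReal (int0 hl hi hc x) (Eventually.of_forall (hn x)),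
      ← ofReal_integral_eq_lintegral_ofReal (int0 hl hi hc y) (Eventually.of_forall (hn y)),
      ← ofReal_integral_eq_lintegral_ofReal (int0 hl hi hc _) (Eventually.of_forall (hn _))] at key
    change ENNReal.ofReal (ZZ h c x) ^ (1 - t) * ENNReal.ofReal (ZZ h c y) ^ t ≤
      ENNReal.ofReal (ZZ h c ((1 - t) * x + t * y)) at key
    rw [ENNReal.ofReal_rpow_of_nonneg (hZ x) t1, ENNReal.ofReal_rpow_of_nonneg (hZ y) ht.le,
      ← ENNReal.ofReal_mul (Real.rpow_nonneg (hZ x) _)] at key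
    exact (ENNReal.ofReal_le_ofReal_iff (hZ _)).1 key
  · intro u v
    rw [ENNReal.ofReal_rpow_of_nonneg (hn x u) t1, ENNReal.ofReal_rpow_of_nonneg (hn y v) ht.le,
      ← ENNReal.ofReal_mul (Real.rpow_nonneg (hn x u) _)]
    refine ENNReal.ofReal_le_ofReal ?_
    rw [Real.mul_rpow (hl.nonneg u) (kk_pos c x u).le,
      Real.mul_rpow (hl.nonneg v) (kk_pos c y v).le]
    have h1 := hl.lc u v t ht ht1
    have h2 := kk_lc hc x y u v t ht ht1
    calc h u ^ (1 - t) * kk c x u ^ (1 - t) * (h v ^ t * kk c y v ^ t)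
        = (h u ^ (1 - t) * h v ^ t) * (kk c x u ^ (1 - t) * kk c y v ^ t) := by ring
      _ ≤ _ := mul_le_mul h1 h2 (mul_nonneg (Real.rpow_nonneg (kk_pos c x u).le _)
        (Real.rpow_nonneg (kk_pos c y v).le _)) (hl.nonneg _)

theorem mean_mono (hl : LC1 h) (hR : 0 < R) (hs : ∀ s, R < |s| → h s = 0) (hi : 0 < ∫ s, h s)
    {c : ℝ} (hc : 0 ≤ c) {s t : ℝ} (hst : s ≤ t) :
    MM h c s / ZZ h c s ≤ MM h c t / ZZ h c t := by
  have hZs := ZZ_pos hl hR hs hi hc s
  have hZt := ZZ_pos hl hR hs hi hc t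
  set m := MM h c s / ZZ h c s with hm
  have hm' : MM h c s - m * ZZ h c s = 0 := by
    rw [hm]
    field_simp
    ring
  rw [le_div_iff₀ hZt]
  set κ := Real.exp (-(c * (t ^ 2 - s ^ 2) / 2)) * Real.exp (c * (t - s) * m) with hκ
  have e : ∀ u, kk c t u = kk c s u * Real.exp (c * (t - s) * u) *
      Real.exp (-(c * (t ^ 2 - s ^ 2) / 2)) := by
    intro u
    unfold kk
    rw [← Real.exp_add, ← Real.exp_add]
    congr 1
    ring
  have hp : ∀ u, κ * (u * (h u * kk c s u) - m * (h u * kk c s u)) ≤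
      u * (h u * kk c t u) - m * (h u * kk c t u) := by
    intro u
    have h1 : (u - m) * Real.exp (c * (t - s) * m) ≤ (u - m) * Real.exp (c * (t - s) * u) := by
      have ha : 0 ≤ c * (t - s) := mul_nonneg hc (by linarith)
      rcases le_total m u with h2 | h2
      · exact mul_le_mul_of_nonneg_left (Real.exp_le_exp.2 (mul_le_mul_of_nonneg_left h2 ha))
          (by linarith)
      · exact mul_le_mul_of_nonpos_left (Real.exp_le_exp.2 (mul_le_mul_of_nonneg_left h2 ha))
          (by linarith)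
    have h3 : 0 ≤ h u * kk c s u * Real.exp (-(c * (t ^ 2 - s ^ 2) / 2)) :=
      mul_nonneg (mul_nonneg (hl.nonneg u) (kk_pos c s u).le) (Real.exp_pos _).le
    have h4 := mul_le_mul_of_nonneg_left h1 h3
    rw [e u, hκ]
    calc _ = h u * kk c s u * Real.exp (-(c * (t ^ 2 - s ^ 2) / 2)) *
          ((u - m) * Real.exp (c * (t - s) * m)) := by ring
      _ ≤ _ := h4
      _ = _ := by ring
  have h5 := integral_mono (((int1 hl hs hi hc s).sub ((int0 hl hi hc s).const_mul m)).const_mul κ)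
    ((int1 hl hs hi hc t).sub ((int0 hl hi hc t).const_mul m)) hp
  simp only [Pi.sub_apply] at h5
  rw [integral_const_mul, integral_sub (int1 hl hs hi hc s) ((int0 hl hi hc s).const_mul m),
    integral_sub (int1 hl hs hi hc t) ((int0 hl hi hc t).const_mul m), integral_const_mul,
    integral_const_mul] at h5
  change κ * (MM h c s - m * ZZ h c s) ≤ MM h c t - m * ZZ h c t at h5
  rw [hm', mul_zero] at h5
  linarith

theorem HH_bound (hl : LC1 h) (hi : 0 < ∫ s, h s)
    (hs : ∀ s, R < |s| → h s = 0) {B : ℝ} (hB0 : 0 < B) (hB : ∀ s, h s ≤ B) {c : ℝ}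
    (hc : 1 ≤ c) (s : ℝ) :
    HH h c s ≤ B * Real.exp (-(max 0 (|s| - R)) ^ 2 / 2) := by
  have hc0 : 0 < c := by linarith
  set d := max 0 (|s| - R) with hd
  obtain ⟨ρ, hρ⟩ : ∃ ρ : ℝ, ∀ u, |u| ≤ R → d ^ 2 + (ρ - u) ^ 2 ≤ (s - u) ^ 2 := by
    rcases le_or_gt |s| R with h1 | h1
    · refine ⟨s, fun u _ => ?_⟩
      have : d = 0 := max_eq_left (by linarith)
      rw [this]
      simp
    · have hdd : d = |s| - R := max_eq_right (by linarith)
      rcases le_total 0 s with h2 | h2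
      · rw [abs_of_nonneg h2] at h1 hdd
        refine ⟨R, fun u hu => ?_⟩
        have := abs_le.1 hu
        rw [hdd]
        nlinarith [mul_nonneg (sub_nonneg.2 h1.le) (sub_nonneg.2 this.2)]
      · rw [abs_of_nonpos h2] at h1 hdd
        refine ⟨-R, fun u hu => ?_⟩
        have := abs_le.1 hu
        rw [hdd]
        nlinarith [mul_nonneg (sub_nonneg.2 h1.le) (by linarith [this.1] : (0 : ℝ) ≤ u + R)]
  have h1 : ZZ h c s ≤ B * Real.exp (-(c * d ^ 2 / 2)) * √(Real.pi / (c / 2)) := by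
    rw [← kk_integral c ρ, ← integral_const_mul]
    refine integral_mono (int0 hl hi hc0.le s) ((kk_int hc0 ρ).const_mul _) fun u => ?_
    simp only
    rcases lt_or_ge R |u| with h3 | h3
    · rw [hs u h3, zero_mul]
      exact mul_nonneg (mul_nonneg hB0.le (Real.exp_pos _).le) (kk_pos _ _ _).le
    · have h4 : kk c s u ≤ Real.exp (-(c * d ^ 2 / 2)) * kk c ρ u := by
        unfold kk
        rw [← Real.exp_add]
        refine Real.exp_le_exp.2 ?_
        have := mul_le_mul_of_nonneg_left (hρ u h3) hc0.le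
        linarith
      calc h u * kk c s u ≤ B * kk c s u := mul_le_mul_of_nonneg_right (hB u) (kk_pos _ _ _).le
        _ ≤ B * (Real.exp (-(c * d ^ 2 / 2)) * kk c ρ u) := mul_le_mul_of_nonneg_left h4 hB0.le
        _ = _ := by ring
  have h2 : √(c / (2 * Real.pi)) * √(Real.pi / (c / 2)) = 1 := by
    rw [← Real.sqrt_mul (by positivity)]
    have : c / (2 * Real.pi) * (Real.pi / (c / 2)) = 1 := by
      field_simp
    rw [this, Real.sqrt_one]
  have h3 : Real.exp (-(c * d ^ 2 / 2)) ≤ Real.exp (-d ^ 2 / 2) := by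
    refine Real.exp_le_exp.2 ?_
    nlinarith [sq_nonneg d]
  calc HH h c s ≤ √(c / (2 * Real.pi)) *
        (B * Real.exp (-(c * d ^ 2 / 2)) * √(Real.pi / (c / 2))) :=
        mul_le_mul_of_nonneg_left h1 (Real.sqrt_nonneg _)
    _ = B * Real.exp (-(c * d ^ 2 / 2)) * (√(c / (2 * Real.pi)) * √(Real.pi / (c / 2))) := by ring
    _ = B * Real.exp (-(c * d ^ 2 / 2)) := by rw [h2, mul_one]
    _ ≤ _ := mul_le_mul_of_nonneg_left h3 hB0.le

theorem HH_pos (hl : LC1 h) (hR : 0 < R) (hs : ∀ s, R < |s| → h s = 0) (hi : 0 < ∫ s, h s) {c : ℝ}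
    (hc : 0 < c) (s : ℝ) : 0 < HH h c s :=
  mul_pos (Real.sqrt_pos.2 (by positivity)) (ZZ_pos hl hR hs hi hc.le s)

theorem HH_lc (hl : LC1 h) (hi : 0 < ∫ s, h s) {c : ℝ}
    (hc : 0 < c) (x y t : ℝ) (ht : 0 < t) (ht1 : t < 1) :
    HH h c x ^ (1 - t) * HH h c y ^ t ≤ HH h c ((1 - t) * x + t * y) := by
  have hK : 0 < √(c / (2 * Real.pi)) := Real.sqrt_pos.2 (by positivity)
  have hZ : ∀ s, 0 ≤ ZZ h c s := fun s => integral_nonneg fun u =>
    mul_nonneg (hl.nonneg u) (kk_pos c s u).le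
  unfold HH
  rw [Real.mul_rpow hK.le (hZ x), Real.mul_rpow hK.le (hZ y)]
  have e : √(c / (2 * Real.pi)) ^ (1 - t) * √(c / (2 * Real.pi)) ^ t = √(c / (2 * Real.pi)) := by
    rw [← Real.rpow_add hK, sub_add_cancel, Real.rpow_one]
  calc _ = √(c / (2 * Real.pi)) ^ (1 - t) * √(c / (2 * Real.pi)) ^ t *
        (ZZ h c x ^ (1 - t) * ZZ h c y ^ t) := by ring
    _ = √(c / (2 * Real.pi)) * (ZZ h c x ^ (1 - t) * ZZ h c y ^ t) := by rw [e]
    _ ≤ _ := mul_le_mul_of_nonneg_left (ZZ_lc hl hi hc.le x y t ht ht1) hK.le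

theorem log_deriv (hl : LC1 h) (hR : 0 < R) (hs : ∀ s, R < |s| → h s = 0) (hi : 0 < ∫ s, h s)
    {c : ℝ} (hc : 0 < c) (s : ℝ) :
    HasDerivAt (fun s => -Real.log (HH h c s)) (c * (s - MM h c s / ZZ h c s)) s := by
  have hZ := ZZ_pos hl hR hs hi hc.le s
  have hK : 0 < √(c / (2 * Real.pi)) := Real.sqrt_pos.2 (by positivity)
  have h1 := (((ZZ_deriv hl hR hs hi hc.le s).const_mul √(c / (2 * Real.pi))).log
    (mul_pos hK hZ).ne').neg
  refine h1.congr_deriv ?_
  field_simp

theorem convex_log (hl : LC1 h) (hR : 0 < R) (hs : ∀ s, R < |s| → h s = 0) (hi : 0 < ∫ s, h s)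
    {c : ℝ} (hc : 0 < c) : ConvexOn ℝ univ fun s => -Real.log (HH h c s) := by
  refine ⟨convex_univ, fun x _ y _ u v hu hv huv => ?_⟩
  rcases hu.eq_or_lt with hu0 | hu0
  · have : v = 1 := by linarith
    rw [← hu0, this]
    simp
  rcases hv.eq_or_lt with hv0 | hv0
  · have : u = 1 := by linarith
    rw [← hv0, this]
    simp
  have h3 := HH_lc hl hi hc x y v hv0 (by linarith)
  have e : 1 - v = u := by linarith
  rw [e] at h3
  have px := HH_pos hl hR hs hi hc x
  have py := HH_pos hl hR hs hi hc y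
  have h4 := Real.log_le_log (mul_pos (Real.rpow_pos_of_pos px _)
    (Real.rpow_pos_of_pos py _)) h3
  rw [Real.log_mul (Real.rpow_pos_of_pos px _).ne'
    (Real.rpow_pos_of_pos py _).ne', Real.log_rpow px, Real.log_rpow py] at h4
  simp only [smul_eq_mul]
  linarith

theorem HH_GD (hl : LC1 h) (hR : 0 < R) (hs : ∀ s, R < |s| → h s = 0) (hi : 0 < ∫ s, h s)
    {B : ℝ} (hB0 : 0 < B) (hB : ∀ s, h s ≤ B) {c : ℝ} (hc : 1 ≤ c) : GD (HH h c) := by
  have hc0 : 0 < c := by linarith
  have hmono : Monotone fun s => c * (s - MM h c s / ZZ h c s) := by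
    intro s t hst
    rcases hst.eq_or_lt with h1 | h1
    · rw [h1]
    have hcv := convex_log hl hR hs hi hc0
    exact (hcv.le_slope_of_hasDerivAt (mem_univ s) (mem_univ t) h1
      (log_deriv hl hR hs hi hc0 s)).trans (hcv.slope_le_of_hasDerivAt (mem_univ s) (mem_univ t) h1
      (log_deriv hl hR hs hi hc0 t))
  refine ⟨HH_pos hl hR hs hi hc0, HH_lc hl hi hc0, ⟨fun s => c * (s - MM h c s / ZZ h c s), c, hc0,
    log_deriv hl hR hs hi hc0, hmono, ?_⟩, ?_⟩
  · have key : ∀ s t : ℝ, s ≤ t → |c * (s - MM h c s / ZZ h c s) -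
        c * (t - MM h c t / ZZ h c t)| ≤ c * |s - t| := by
      intro s t hst
      have h1 := hmono hst
      have h2 := mul_le_mul_of_nonneg_left (mean_mono hl hR hs hi hc0.le hst) hc0.le
      simp only at h1
      rw [abs_of_nonpos (by linarith), abs_of_nonpos (by linarith : s - t ≤ 0)]
      nlinarith
    intro s t
    rcases le_total s t with h1 | h1
    · exact key s t h1
    · rw [abs_sub_comm, abs_sub_comm s t]
      exact key t s h1
  · intro a
    have hcont : Continuous (HH h c) := by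
      refine continuous_iff_continuousAt.2 fun s => ?_
      exact ((ZZ_deriv hl hR hs hi hc0.le s).const_mul _).continuousAt
    have h1 : Integrable fun x : ℝ => (16 * B * Real.exp (R ^ 2 / 2 + 4 * a ^ 2)) *
        Real.exp (-(1 / 8) * x ^ 2) := (integrable_exp_neg_mul_sq (by norm_num)).const_mul _
    refine h1.mono' ?_ (Eventually.of_forall fun x => ?_)
    · exact (Continuous.mul (by fun_prop) (by fun_prop)).aestronglyMeasurable
    · have hp := HH_pos hl hR hs hi hc0 x
      rw [Real.norm_of_nonneg (by positivity)]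
      have h2 := HH_bound hl hi hs hB0 hB hc x
      set d := max 0 (|x| - R) with hd
      have hd0 : 0 ≤ d := le_max_left _ _
      have hd1 : |x| ≤ d + R := by
        have := le_max_right 0 (|x| - R)
        linarith
      have h3 : x ^ 2 ≤ 2 * d ^ 2 + 2 * R ^ 2 := by
        have h4 : x ^ 2 ≤ (d + R) ^ 2 := by
          rw [← sq_abs x]
          exact pow_le_pow_left₀ (abs_nonneg _) hd1 2
        nlinarith [sq_nonneg (d - R)]
      have h4 : 1 + x ^ 2 ≤ 16 * Real.exp (x ^ 2 / 16) := by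
        have := Real.add_one_le_exp (x ^ 2 / 16)
        linarith
      have h5 : Real.exp (a * x) ≤ Real.exp (x ^ 2 / 16 + 4 * a ^ 2) := by
        refine Real.exp_le_exp.2 ?_
        nlinarith [sq_nonneg (x / 4 - 2 * a)]
      have h6 : HH h c x ≤ B * Real.exp (R ^ 2 / 2 - x ^ 2 / 4) := by
        refine h2.trans (mul_le_mul_of_nonneg_left (Real.exp_le_exp.2 ?_) hB0.le)
        linarith
      calc (1 + x ^ 2) * HH h c x * Real.exp (a * x) ≤ (16 * Real.exp (x ^ 2 / 16)) *
            (B * Real.exp (R ^ 2 / 2 - x ^ 2 / 4)) * Real.exp (x ^ 2 / 16 + 4 * a ^ 2) := by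
            gcongr
        _ = 16 * B * (Real.exp (x ^ 2 / 16) * Real.exp (R ^ 2 / 2 - x ^ 2 / 4) *
            Real.exp (x ^ 2 / 16 + 4 * a ^ 2)) := by ring
        _ = 16 * B * Real.exp (R ^ 2 / 2 + 4 * a ^ 2 + -(1 / 8) * x ^ 2) := by
            rw [← Real.exp_add, ← Real.exp_add]
            congr 2
            ring
        _ = _ := by
            rw [Real.exp_add]
            ring

theorem HH_eq {c : ℝ} (hc : 0 < c) (s : ℝ) :
    HH h c s = ∫ y, h (s - (√c)⁻¹ * y) * (Real.exp (-(1 / 2) * y ^ 2) * (√(2 * Real.pi))⁻¹) := by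
  have hq : 0 < √c := Real.sqrt_pos.2 hc
  have hpi : 0 < √(2 * Real.pi) := Real.sqrt_pos.2 (by positivity)
  have h1 : ZZ h c s = ∫ w, h (s - w) * Real.exp (-(c * w ^ 2 / 2)) := by
    unfold ZZ
    rw [← integral_sub_left_eq_self (fun u => h u * kk c s u) volume s]
    refine integral_congr_ae (Eventually.of_forall fun w => ?_)
    unfold kk
    simp only
    rw [sub_sub_cancel]
  have h2 := Measure.integral_comp_mul_left (fun w => h (s - w) * Real.exp (-(c * w ^ 2 / 2)))
    (√c)⁻¹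
  rw [inv_inv, abs_of_pos hq, smul_eq_mul, ← h1] at h2
  have h3 : ∫ y, h (s - (√c)⁻¹ * y) * (Real.exp (-(1 / 2) * y ^ 2) * (√(2 * Real.pi))⁻¹) =
      (√(2 * Real.pi))⁻¹ * (√c * ZZ h c s) := by
    rw [← h2, ← integral_const_mul]
    refine integral_congr_ae (Eventually.of_forall fun y => ?_)
    simp only
    have e : -(c * ((√c)⁻¹ * y) ^ 2 / 2) = -(1 / 2) * y ^ 2 := by
      rw [mul_pow, inv_pow, Real.sq_sqrt hc.le]
      field_simp
    rw [e]
    ring
  rw [h3]
  unfold HH
  rw [Real.sqrt_div hc.le]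
  field_simp

theorem HH_tendsto (hl : LC1 h) {B : ℝ} (hB : ∀ s, h s ≤ B) {s : ℝ} (hcs : ContinuousAt h s) :
    Tendsto (fun j : ℕ => HH h ((j : ℝ) + 1) s) atTop (𝓝 (h s)) := by
  have hpi : 0 < √(2 * Real.pi) := Real.sqrt_pos.2 (by positivity)
  have hg : Integrable fun y : ℝ => Real.exp (-(1 / 2) * y ^ 2) * (√(2 * Real.pi))⁻¹ :=
    (integrable_exp_neg_mul_sq (by norm_num)).mul_const _
  have hgi : ∫ y : ℝ, Real.exp (-(1 / 2) * y ^ 2) * (√(2 * Real.pi))⁻¹ = 1 := by
    rw [integral_mul_const, integral_gaussian]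
    have : Real.pi / (1 / 2) = 2 * Real.pi := by ring
    rw [this]
    exact mul_inv_cancel₀ hpi.ne'
  have e1 : (fun j : ℕ => HH h ((j : ℝ) + 1) s) = fun j : ℕ => ∫ y,
      h (s - (√((j : ℝ) + 1))⁻¹ * y) * (Real.exp (-(1 / 2) * y ^ 2) * (√(2 * Real.pi))⁻¹) := by
    funext j
    exact HH_eq (by positivity) s
  have e2 : h s = ∫ y : ℝ, h s * (Real.exp (-(1 / 2) * y ^ 2) * (√(2 * Real.pi))⁻¹) := by
    rw [integral_const_mul, hgi, mul_one]
  rw [e1, e2]
  refine tendsto_integral_of_dominated_convergence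
    (fun y => B * (Real.exp (-(1 / 2) * y ^ 2) * (√(2 * Real.pi))⁻¹)) ?_ (hg.const_mul B) ?_ ?_
  · intro j
    refine Measurable.aestronglyMeasurable ?_
    refine (hl.meas.comp (by fun_prop)).mul (by fun_prop)
  · intro j
    refine Eventually.of_forall fun y => ?_
    rw [Real.norm_of_nonneg (mul_nonneg (hl.nonneg _) (by positivity))]
    exact mul_le_mul_of_nonneg_right (hB _) (by positivity)
  · refine Eventually.of_forall fun y => ?_
    refine Tendsto.mul_const _ ?_
    refine hcs.tendsto.comp ?_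
    have h1 : Tendsto (fun j : ℕ => (√((j : ℝ) + 1))⁻¹) atTop (𝓝 0) := by
      refine tendsto_inv_atTop_zero.comp ?_
      refine Real.tendsto_sqrt_atTop.comp ?_
      exact tendsto_atTop_add_const_right _ _ tendsto_natCast_atTop_atTop
    have h2 := (h1.mul_const y).const_sub s
    rw [zero_mul, sub_zero] at h2
    exact h2

end

/-- Gaussian regularisation -/
theorem reg : S_REG := by
  intro h R hl hR hs hi
  obtain ⟨B, hB0, hB⟩ := bounded hl hR hs hi
  obtain ⟨E, hE, hEc⟩ := conts hl hs hi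
  have hc : ∀ j : ℕ, (1 : ℝ) ≤ (j : ℝ) + 1 := fun j => by
    have : (0 : ℝ) ≤ (j : ℝ) := Nat.cast_nonneg j
    linarith
  exact ⟨fun j => HH h ((j : ℝ) + 1), B, hB0, fun j => HH_GD hl hR hs hi hB0 hB (hc j),
    fun j s => HH_bound hl hi hs hB0 hB (hc j) s, E, hE,
    fun s hsE => HH_tendsto hl hB (hEc s hsE)⟩

end Pool.Agent.Y333.RG
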